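import Pool.Agent.TH117.GN.Defs
import Pool.Agent.TH117.BL.Main
import Pool.Agent.W495.FM.HomFive
import Pool.Agent.W495.FM.DimMain

/-!
# Schemes over finite fields generated by certain abelian varieties
-/

set_option autoImplicit false

namespace Pool.Agent.TH117.GN

open Pool.Agent.W495.TA Pool.Agent.W495.FM Module

variable {p : ℕ} [Fact p.Prime] {ν : PadicAlgCl p ≃+* ℂ} {Ω : Type} [Field Ω] [IsAlgClosed Ω]
  [CharZero Ω]

theorem tateHolds_elem {Z Y : RedAV p ν} {C : Cycles Ω Y} (h1 : BL.HasElementaryRelations Z)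
    (h2 : BL.IsPowersTimesSupersingular Z Y) (hC : IsChow C) : TateHolds C :=
  fun j f hf => hC.algebraic j f (BL.elementary Z h1 Ω Y h2 1 j one_pos f hf) hf

theorem elem_of_good {Z : RedAV p ν} (h : BL.IsGoodSet Z Set.univ) :
    BL.HasElementaryRelations Z := fun e he =>
  AddSubgroup.subset_closure ⟨e, he, Or.inr (Or.inl ⟨Set.univ, h, fun _ _ => Set.mem_univ _⟩),
    fun _ => rfl⟩

theorem tateHolds_good {Y : RedAV p ν} {C : Cycles Ω Y} (hY : IsGoodAV Y) (hC : IsChow C) :
    TateHolds C := by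
  obtain ⟨Z, h1, h2⟩ := hY
  exact tateHolds_elem (elem_of_good h1) h2 hC

variable {V : Type} {T : Homology Ω V}

theorem tb_good (hT : IsHomology T) {X : V} (hX : Generated T (IsGoodAbelian p ν T) X) :
    TB T X := by
  refine tb_generated hT (fun X hX => ?_) hX
  obtain ⟨Y, C, M, g, hY, hC, hM, hX⟩ := hX
  exact tb_abelian hT hC (tateHolds_good hY hC) hM hX

theorem isoAbove_good (hT : IsHomology T) (hW : HasWeights T) :
    IsoAbove T (IsGoodAbelian p ν T) := fun _ _ _ _ h hX hZ i hi =>
  iso_opened hT hW h (onto_of_dim hT hZ hi) ((tb_good hT hX).iso hT i)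

theorem onto_spread_good (hT : IsHomology T) (hW : HasWeights T) {X : V}
    (hX : Spread T (fun X => Generated T (IsGoodAbelian p ν T) X ∨ ∀ i, IsOnto T X i) X) (i : ℤ) :
    IsOnto T X i := by
  refine onto_spread hT hW (fun X h i => ?_) hX i
  rcases h with h | h
  · exact ((tb_good hT h).iso hT i).1
  · exact h i

end Pool.Agent.TH117.GN
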