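import Pool.Agent.TH117.GN.NumDefs
import Pool.Agent.TH117.GN.Main

/-!
# Rational and numerical equivalence on varieties with motives generated by abelian varieties
-/

set_option autoImplicit false

namespace Pool.Agent.TH117.GN

open Pool.Agent.W495.TA Pool.Agent.W495.FM Module

section Real

variable {V W : Type} [AddCommGroup V] [Module ℚ V] [AddCommGroup W] [Module ℚ W]

theorem exists_dual_bases [FiniteDimensional ℚ V] [FiniteDimensional ℚ W] (ψ : V →ₗ[ℚ] W →ₗ[ℚ] ℚ)
    (h1 : ∀ x, (∀ y, ψ x y = 0) → x = 0) (h2 : ∀ y, (∀ x, ψ x y = 0) → y = 0) :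
    ∃ (r : ℕ) (x : Basis (Fin r) ℚ V) (y : Basis (Fin r) ℚ W),
      ∀ i j, ψ (x i) (y j) = if i = j then 1 else 0 := by
  have i1 : Function.Injective ψ := by
    rw [injective_iff_map_eq_zero]
    exact fun x hx => h1 x fun y => by rw [hx]; rfl
  have i2 : Function.Injective ψ.flip := by
    rw [injective_iff_map_eq_zero]
    intro y hy
    exact h2 y fun x => by rw [← LinearMap.flip_apply, hy]; rfl
  have hd : finrank ℚ V = finrank ℚ (Dual ℚ W) := by
    apply le_antisymm
    · exact LinearMap.finrank_le_finrank_of_injective i1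
    · rw [Subspace.dual_finrank_eq]
      refine (LinearMap.finrank_le_finrank_of_injective i2).trans ?_
      exact (Subspace.dual_finrank_eq (K := ℚ) (V := V)).le
  let Ψ : V ≃ₗ[ℚ] Dual ℚ W := LinearEquiv.ofBijective ψ
    ⟨i1, (LinearMap.injective_iff_surjective_of_finrank_eq_finrank hd).1 i1⟩
  let f := finBasis ℚ W
  let e := f.dualBasis.map Ψ.symm
  refine ⟨_, e, f, fun i j => ?_⟩
  have : Ψ (e i) = f.dualBasis i := by
    rw [Basis.map_apply, LinearEquiv.apply_symm_apply]
  change Ψ (e i) (f j) = _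
  rw [this, Basis.dualBasis_apply_self]
  simp only [eq_comm]

end Real

variable {p : ℕ} [Fact p.Prime] {ν : PadicAlgCl p ≃+* ℂ} {Ω : Type} [Field Ω] [IsAlgClosed Ω]
  [CharZero Ω]

theorem map_zero_of_add {A B : Type} [AddCommGroup A] [AddCommGroup B] {f : A → B}
    (h : ∀ x y, f (x + y) = f x + f y) : f 0 = 0 := by
  have := h 0 0
  rw [add_zero] at this
  exact (add_eq_left.1 this.symm)

/-- The Chow groups of the abelian varieties are finite-dimensional. -/
theorem finite_chow {Y : RedAV p ν} {C : Cycles Ω Y} (hC : IsChow C) (hT : TateHolds C) {g : ℕ}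
    (hg : HasDim Y g) (m : ℕ) : FiniteDimensional ℚ (C.CH m) := by
  rcases le_or_gt m g with hm | hm
  · obtain ⟨i, rfl⟩ : ∃ i, g = i + m := ⟨g - m, by omega⟩
    obtain ⟨r, y, z, -, -, -, h⟩ := exists_dual hC hT hg
    refine Module.Finite.of_surjective (Fintype.linearCombination ℚ z) fun x => ?_
    exact ⟨fun a => C.int i m (y a) x, by
      rw [Fintype.linearCombination_apply]; exact h x⟩
  · have h0 := chow_zero hC hg hm
    haveI : Subsingleton (C.CH m) := ⟨fun x y => (h0 x).trans (h0 y).symm⟩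
    infer_instance

variable {G : ChowGroups} {d : ℕ} {I : Type} [Fintype I] {Y : I → RedAV p ν}
  {C : ∀ l, Cycles Ω (Y l)} {g : I → ℕ} {s : I → ℤ} {R : Corrs G C}

/-- A cycle on `X` with trivial operation is trivial. -/
theorem zero_of_a (hS : IsMotivicSummand G d C g s R) {n : ℕ} (x : G.A n)
    (h : ∀ l, s l ≤ n → R.a l n (n - s l).toNat x = 0) : x = 0 := by
  rw [← hS.sum n x]
  refine Finset.sum_eq_zero fun l _ => ?_
  split_ifs with hl
  · rw [h l hl]
    exact map_zero_of_add (hS.add.2 l n _)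
  · rfl

theorem num_summand (hE : ∀ l, IsElementaryAV (Y l)) (hC : ∀ l, IsChow (C l))
    (hS : IsMotivicSummand G d C g s R) {m n : ℕ} (hmn : m + n = d) (x : G.A n)
    (h : ∀ z, G.int m n z x = 0) : x = 0 := by
  have hT : ∀ l, TateHolds (C l) := fun l => by
    obtain ⟨Z, h1, h2⟩ := hE l
    exact tateHolds_elem h1 h2 (hC l)
  refine zero_of_a hS x fun l hl => ?_
  have hk : (n : ℤ) = (n - s l).toNat + s l := by omega
  rcases le_or_gt (n - s l).toNat (g l) with hg | hg
  · obtain ⟨i, hi⟩ : ∃ i, i + (n - s l).toNat = g l := ⟨g l - (n - s l).toNat, by omega⟩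
    refine num_trivial (hC l) (hT l) (i := i) (by rw [hi]; exact hS.dim l) _ fun y => ?_
    rw [← hS.adjoint l n _ m i hk hmn hi y x]
    exact h _
  · exact chow_zero (hC l) (hS.dim l) hg _

theorem add_smul_rat {A B : Type} [AddCommGroup A] [Module ℚ A] [AddCommGroup B] [Module ℚ B]
    {f : A → B} (h : ∀ x y, f (x + y) = f x + f y) : ∃ φ : A →ₗ[ℚ] B, ∀ x, φ x = f x :=
  ⟨(AddMonoidHom.mk' f h).toRatLinearMap, fun _ => rfl⟩

theorem finite_summand (hE : ∀ l, IsElementaryAV (Y l)) (hC : ∀ l, IsChow (C l))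
    (hS : IsMotivicSummand G d C g s R) (n : ℕ) : FiniteDimensional ℚ (G.A n) := by
  have hT : ∀ l, TateHolds (C l) := fun l => by
    obtain ⟨Z, h1, h2⟩ := hE l
    exact tateHolds_elem h1 h2 (hC l)
  haveI : ∀ l, FiniteDimensional ℚ ((C l).CH (n - s l).toNat) := fun l =>
    finite_chow (hC l) (hT l) (hS.dim l) _
  choose φ hφ using fun l => add_smul_rat (hS.add.1 l n (n - s l).toNat)
  refine Module.Finite.of_injective (LinearMap.pi φ) ?_
  rw [injective_iff_map_eq_zero]
  intro x hx
  refine zero_of_a hS x fun l _ => ?_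
  rw [← hφ]
  exact congrFun hx l

theorem perfect (hG : IsIntersection G d) (hX : IsGeneratedByElementary p ν Ω G d) {m n : ℕ}
    (hmn : m + n = d) : IsPerfect G m n := by
  obtain ⟨I, _, Y, C, g, s, R, hE, hC, hS⟩ := hX
  haveI := finite_summand hE hC hS m
  haveI := finite_summand hE hC hS n
  obtain ⟨ψ, hψ⟩ := hG.bilin m n
  obtain ⟨r, x, y, h⟩ := exists_dual_bases ψ
    (fun x hx => num_summand hE hC hS (m := n) (n := m) (by omega) x fun z => by
      rw [hG.symm n m (by omega), hψ, hx])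
    (fun y hy => num_summand hE hC hS hmn y fun z => by rw [hψ, hy])
  exact ⟨r, x, y, fun i j => (hψ _ _).trans (h i j)⟩

end Pool.Agent.TH117.GN
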