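import Pool.Agent.W495.FM.Defs
import Pool.Agent.TH117.BL.Defs

/-!
# Varieties over finite fields with motives generated by abelian varieties: definitions
-/

set_option autoImplicit false

namespace Pool.Agent.TH117.GN

open Pool.Agent.W495.TA Pool.Agent.W495.FM Module

variable {p : ℕ} [Fact p.Prime] {ν : PadicAlgCl p ≃+* ℂ}

/-- `Y` is isogenous, over an algebraic closure, to a product of a supersingular abelian variety and
of powers of the factors of an abelian variety `Z` with elementary relations between the Frobenius
eigenvalues. -/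
def IsElementaryAV (Y : RedAV p ν) : Prop :=
  ∃ Z : RedAV p ν, BL.HasElementaryRelations Z ∧ BL.IsPowersTimesSupersingular Z Y

/-- The Chow groups `A n` of cycles of codimension `n` on a variety modulo rational equivalence, with
rational coefficients, and the intersection numbers of cycles of complementary codimension. -/
structure ChowGroups where
  A : ℕ → Type
  [grp : ∀ n, AddCommGroup (A n)]
  [mod : ∀ n, Module ℚ (A n)]
  int : ∀ m n, A m → A n → ℚ

attribute [instance] ChowGroups.grp ChowGroups.mod

/-- The intersection numbers on a variety of dimension `d` are bilinear and symmetric. -/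
structure IsIntersection (G : ChowGroups) (d : ℕ) : Prop where
  bilin : ∀ m n, IsBilin ℚ (G.int m n)
  symm : ∀ m n, m + n = d → ∀ x y, G.int m n x y = G.int n m y x

variable {Ω : Type} [Field Ω] [CharZero Ω]

/-- Correspondences between a variety `X` with the Chow groups `G` and abelian varieties `Y l`: the
operation `a l` of a correspondence from `X` to `Y l`, the operation `t l` of its transpose, and the
operation `b l` of a correspondence from `Y l` to `X`. -/
structure Corrs (G : ChowGroups) {I : Type} {Y : I → RedAV p ν} (C : ∀ l, Cycles Ω (Y l)) where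
  a : ∀ l n m, G.A n → (C l).CH m
  t : ∀ l n m, (C l).CH m → G.A n
  b : ∀ l n m, (C l).CH m → G.A n

/-- The operations of correspondences are additive. -/
def IsAdditive {G : ChowGroups} {I : Type} {Y : I → RedAV p ν} {C : ∀ l, Cycles Ω (Y l)}
    (R : Corrs G C) : Prop :=
  (∀ l n m x y, R.a l n m (x + y) = R.a l n m x + R.a l n m y) ∧
    ∀ l n m x y, R.b l n m (x + y) = R.b l n m x + R.b l n m y

/-- The sum of the compositions `b l ∘ a l` is the identity of `CH^n(X)`: the correspondences with the
index `l` map `CH^n(X)` to `CH^m(Y l)` and back, where `n = m + s l`. -/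
def SumIsOne {G : ChowGroups} {I : Type} [Fintype I] {Y : I → RedAV p ν}
    {C : ∀ l, Cycles Ω (Y l)} (s : I → ℤ) (R : Corrs G C) : Prop :=
  ∀ (n : ℕ) (x : G.A n), (∑ l, if s l ≤ n then
    R.b l n (n - s l).toNat (R.a l n (n - s l).toNat x) else 0) = x

/-- The transpose `t l` of `a l` is adjoint to `a l` for the intersection numbers on `X` (of dimension
`d`) and on `Y l` (of dimension `g l`). -/
def IsAdjoint {G : ChowGroups} {I : Type} {Y : I → RedAV p ν} {C : ∀ l, Cycles Ω (Y l)} (d : ℕ)
    (g : I → ℕ) (s : I → ℤ) (R : Corrs G C) : Prop :=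
  ∀ (l : I) (n m n' m' : ℕ), (n : ℤ) = m + s l → n' + n = d → m' + m = g l → ∀ y x,
    G.int n' n (R.t l n' m' y) x = (C l).int m' m y (R.a l n m x)

/-- The motive of the variety `X` of dimension `d` is a direct summand of the sum of the motives of the
abelian varieties `Y l` of dimension `g l`, twisted `s l` times. -/
structure IsMotivicSummand (G : ChowGroups) (d : ℕ) {I : Type} [Fintype I] {Y : I → RedAV p ν}
    (C : ∀ l, Cycles Ω (Y l)) (g : I → ℕ) (s : I → ℤ) (R : Corrs G C) : Prop where
  dim : ∀ l, HasDim (Y l) (g l)
  add : IsAdditive R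
  sum : SumIsOne s R
  adjoint : IsAdjoint d g s R

/-- The motive of `X` is a direct summand of a finite sum of twists of motives of abelian varieties
with elementary relations between the Frobenius eigenvalues. -/
def IsGeneratedByElementary (p : ℕ) [Fact p.Prime] (ν : PadicAlgCl p ≃+* ℂ) (Ω : Type) [Field Ω]
    [CharZero Ω] (G : ChowGroups) (d : ℕ) : Prop :=
  ∃ (I : Type) (_ : Fintype I) (Y : I → RedAV p ν) (C : ∀ l, Cycles Ω (Y l)) (g : I → ℕ)
    (s : I → ℤ) (R : Corrs G C), (∀ l, IsElementaryAV (Y l)) ∧ (∀ l, IsChow (C l)) ∧
      IsMotivicSummand G d C g s R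

/-- The intersection pairing of `CH^m(X)` and `CH^n(X)` is perfect: these spaces have finite bases
that are dual to each other for the intersection numbers. (The same bases are dual bases of
`CH^m(X)_ℝ` and `CH^n(X)_ℝ`.) -/
def IsPerfect (G : ChowGroups) (m n : ℕ) : Prop :=
  ∃ (r : ℕ) (x : Basis (Fin r) ℚ (G.A m)) (y : Basis (Fin r) ℚ (G.A n)),
    ∀ i j, G.int m n (x i) (y j) = if i = j then 1 else 0

end Pool.Agent.TH117.GN
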