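import Pool.Agent.TH117.GN.WtDefs
import Pool.Agent.TH117.GN.Main

/-!
# Regulators for complements of closed subschemes of bounded dimension
-/

set_option autoImplicit false

namespace Pool.Agent.TH117.GN

open Pool.Agent.W495.TA Pool.Agent.W495.FM

variable {Ω V : Type} [Field Ω] [CharZero Ω] {T : Homology Ω V}

theorem isRegIso_iff (hT : IsHomology T) (X : V) (i j : ℤ) :
    IsRegIso T X i j ↔ (node T hT X i j).Good := by
  unfold IsRegIso
  have h1 := (node T hT X i j).good_iff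
  have h2 : ∀ e, (node T hT X i j).φ e = T.frob X i j e := (hT.lin X i j).map_apply
  have h3 : ∀ e, (hT.lin X i j).map e = T.frob X i j e := (hT.lin X i j).map_apply
  rw [h1]
  refine and_congr (forall_congr' fun e => ?_) (and_congr Iff.rfl (forall_congr' fun e => ?_))
  · rw [← h3]
    exact Iff.rfl
  · rw [← h3 (T.frob X i j e - e), ← h3 e]
    exact Iff.rfl

theorem good_of_dim (hT : IsHomology T) {Z : V} {d : ℤ} (hZ : HasDimAtMost T Z d) {j : ℤ}
    (hj : d ≤ j) (n : ℤ) : (node T hT Z n j).Good := by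
  by_cases h : n ≠ 2 * d ∨ d ≠ j
  · obtain ⟨h1, h2⟩ := hZ.2 n j hj h
    refine Node.good_of_zero _ h1 fun e he => ?_
    exact h2 e (((hT.lin Z n j).map_apply e).symm.trans he)
  · push Not at h
    obtain ⟨rfl, rfl⟩ := h
    exact (isRegIso_iff hT Z _ _).1 hZ.1

theorem reg_opened (hT : IsHomology T) {Z X U : V} (h : IsTriple T Z X U) (hX : TB T X) {d : ℤ}
    (hZ : HasDimAtMost T Z d) {j : ℤ} (hj : d ≤ j) (i : ℤ) : IsRegIso T U i j := by
  rw [tb_iff T hT] at hX
  rw [isRegIso_iff hT]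
  obtain ⟨i, rfl⟩ : ∃ k, i = k + 1 := ⟨i - 1, by ring⟩
  obtain ⟨a, b, d, h⟩ := h j
  exact five ((a (i + 1)).arr hT) ((b (i + 1)).arr hT) ((d i).arr hT) ((a i).arr hT)
    (h (i + 1)).1.1 (h i).2.1.1 (h i).2.2.1 (h (i + 1)).1.snd (h i).2.1.snd (h i).2.2.snd
    (good_of_dim hT hZ hj (i + 1)) (hX (i + 1) j) (good_of_dim hT hZ hj i) (hX i j)

variable [IsAlgClosed Ω] {p : ℕ} [Fact p.Prime] {ν : PadicAlgCl p ≃+* ℂ}

theorem tb_good2 (hT : IsHomology T) {X : V} (hX : Generated T (IsGood p ν T) X) : TB T X := by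
  refine tb_generated hT (fun X hX => ?_) hX
  obtain ⟨Y, Z, C, M, g, h1, h2, hC, hM, hX⟩ := hX
  exact tb_abelian hT hC (tateHolds_elem (elem_of_good h1) h2 hC) hM hX

end Pool.Agent.TH117.GN
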