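import Pool.Agent.TH117.GN.ParDefs
import Pool.Agent.TH117.GN.Main
import Pool.Agent.W495.FM.Higher

/-!
# `K`-theory of varieties over finite fields with motives generated by abelian varieties
-/

set_option autoImplicit false

namespace Pool.Agent.TH117.GN.Par

open Pool.Agent.W495.TA Pool.Agent.W495.FM

variable {p : ℕ} [Fact p.Prime] {ν : PadicAlgCl p ≃+* ℂ} {Ω : Type} [Field Ω] [IsAlgClosed Ω]
  [CharZero Ω]

theorem parshin {X : ℤ → ℤ → Type} [∀ i n, AddCommGroup (X i n)] (hX : IsGenerated p ν Ω X)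
    (i n : ℤ) (hi : i ≠ 2 * n) (x : X i n) : IsTors x := by
  obtain ⟨I, _, Y, Z, C, M, r, h1, h2, h3, h4, h5⟩ := hX
  exact summand_trivial h3 (fun l => tateHolds_elem (h1 l) (h2 l) (h3 l)) h4 r X h5 i n hi x

theorem kTheory {K : ℕ → Type} [∀ m, AddCommGroup (K m)] {X : ℤ → ℤ → Type}
    [∀ i n, AddCommGroup (X i n)] (hX : IsGenerated p ν Ω X) (hK : HasChernCharacter K X) (m : ℕ)
    (hm : 1 ≤ m) (x : K m) : IsTors x := by
  obtain ⟨ch, h⟩ := hK m
  exact h x fun n => parshin hX _ _ (by omega) _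

end Pool.Agent.TH117.GN.Par
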