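import Pool.Agent.TH117.GN.NCDefs
import Pool.Agent.TH117.GN.Num

/-!
# Dg categories over finite fields with noncommutative motives generated by abelian varieties
-/

set_option autoImplicit false

namespace Pool.Agent.TH117.GN.NC

open Pool.Agent.W495.TA Pool.Agent.W495.FM

variable {p : ℕ} [Fact p.Prime] {ν : PadicAlgCl p ≃+* ℂ} {Ω : Type} [Field Ω] [IsAlgClosed Ω]
  [CharZero Ω]

theorem euler_nondeg {Y : RedAV p ν} {C : Cycles Ω Y} (hC : IsChow C) (hT : TateHolds C) {g : ℕ}
    (hg : HasDim Y g) (x : K0 C) (h : ∀ y, euler C g y x = 0) : x = 0 := by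
  funext j
  rcases le_or_gt j g with hj | hj
  · have hij : g - j + j = g := by omega
    refine num_trivial hC hT (i := g - j) (j := j) (by rw [hij]; exact hg) _ fun y => ?_
    have h1 := h (Pi.single (g - j) y)
    unfold euler at h1
    rw [Finset.sum_eq_single (g - j)] at h1
    · have h2 : g - (g - j) = j := by omega
      have h3 := (mul_eq_zero.1 h1).resolve_left (pow_ne_zero _ (by norm_num))
      rw [Pi.single_eq_same] at h3
      rw [h2] at h3
      exact h3
    · intro i _ hi
      rw [Pi.single_eq_of_ne hi]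
      obtain ⟨φ, hφ⟩ := hC.bilin_int i (g - i)
      rw [hφ, map_zero, LinearMap.zero_apply, mul_zero]
    · intro hn
      exact absurd (Finset.mem_range.2 (by omega)) hn
  · exact chow_zero hC hg hj _

theorem ker {K : Type} [AddCommGroup K] {χ : K → K → ℚ} (hK : IsGenerated p ν Ω χ) (x : K)
    (h : ∀ z, χ z x = 0) : x = 0 := by
  obtain ⟨I, _, Y, Z, C, g, R, h1, h2, h3, hR⟩ := hK
  rw [← hR.sum x]
  refine Finset.sum_eq_zero fun l _ => ?_
  have h4 : R.a l x = 0 := by
    refine euler_nondeg (h3 l) (tateHolds_elem (h1 l) (h2 l) (h3 l)) (hR.dim l) _ fun y => ?_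
    rw [← hR.adjoint]
    exact h _
  rw [h4]
  exact map_zero_of_add (hR.add l)

end Pool.Agent.TH117.GN.NC
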