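import Pool.Agent.TH117.GN.ZetaDefs
import Pool.Agent.TH117.GN.Main

/-!
# The orders of zeta functions and the ranks of higher Chow groups
-/

set_option autoImplicit false

namespace Pool.Agent.TH117.GN.Zeta

open Pool.Agent.W495.TA Pool.Agent.W495.FM Module

variable {Ω V : Type} [Field Ω] [CharZero Ω] {T : Homology Ω V}

theorem iterate_eigen {E : Type} [AddCommGroup E] {F : E → E}
    (h : ∀ e, F (F e - e) = F e - e → F e = e) (N : ℕ) (e : E)
    (he : (fun e => F e - e)^[N] e = 0) : F e = e ∨ N = 0 ∧ e = 0 := by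
  induction N generalizing e with
  | zero => exact Or.inr ⟨rfl, he⟩
  | succ N ih =>
    left
    rw [Function.iterate_succ_apply] at he
    rcases ih _ he with h1 | ⟨-, h1⟩
    · exact h e h1
    · exact sub_eq_zero.1 h1

theorem mult_eq (hT : IsHomology T) {X : V} (hX : TB T X) (i j : ℤ) :
    Module.Finite ℚ (T.M X i j) ∧ finrank ℚ (T.M X i j) = mult T X i j := by
  obtain ⟨h1, h2, h3⟩ := hX i j
  haveI := hT.finite X i j
  have hset : {e | ∃ N : ℕ, (fun e => T.frob X i j e - e)^[N] e = 0} =
      (Submodule.span Ω (Set.range (T.reg X i j)) : Set (T.E X i j)) := by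
    ext e
    constructor
    · rintro ⟨N, hN⟩
      rcases iterate_eigen h3 N e hN with h4 | ⟨-, h4⟩
      · exact (h1 e).1 h4
      · rw [h4]; exact Submodule.zero_mem _
    · intro he
      refine ⟨1, ?_⟩
      change T.frob X i j e - e = 0
      rw [(h1 e).2 he, sub_self]
  have hm : mult T X i j = finrank Ω (Submodule.span Ω (Set.range (T.reg X i j))) := by
    unfold mult
    rw [hset, Submodule.span_coe_eq_restrictScalars, Submodule.restrictScalars_self]
  have hfin : Module.Finite ℚ (T.M X i j) := by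
    by_contra hcon
    have hr : ∀ r : ℕ, ∃ x : Fin r → T.M X i j, LinearIndependent ℚ x := by
      intro r
      have h5 : (r : Cardinal) ≤ Module.rank ℚ (T.M X i j) := by
        have h6 : Cardinal.aleph0 ≤ Module.rank ℚ (T.M X i j) := by
          rw [← not_lt]
          intro h7
          exact hcon (Module.rank_lt_aleph0_iff.1 h7)
        exact (Cardinal.nat_lt_aleph0 r).le.trans h6
      exact exists_linearIndependent_of_le_rank h5 |>.imp fun x hx => hx
    obtain ⟨x, hx⟩ := hr (finrank Ω (T.E X i j) + 1)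
    have h5 := (h2 _ x hx).fintype_card_le_finrank
    rw [Fintype.card_fin] at h5
    omega
  refine ⟨hfin, ?_⟩
  haveI := hfin
  let b := finBasis ℚ (T.M X i j)
  have hli := h2 _ b b.linearIndependent
  obtain ⟨φ, hφ⟩ : ∃ φ : T.M X i j →+ T.E X i j, ∀ x, φ x = T.reg X i j x :=
    ⟨AddMonoidHom.mk' _ (hT.add X i j), fun _ => rfl⟩
  have hspan : Submodule.span Ω (Set.range (T.reg X i j)) =
      Submodule.span Ω (Set.range fun k => T.reg X i j (b k)) := by
    apply le_antisymm
    · rw [Submodule.span_le]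
      rintro _ ⟨x, rfl⟩
      rw [← hφ, ← b.sum_repr x, map_sum]
      refine Submodule.sum_mem _ fun k _ => ?_
      have h4 : φ (b.repr x k • b k) = ((b.repr x k : ℚ) : Ω) • φ (b k) := by
        letI : Module ℚ (T.E X i j) := Module.compHom _ (algebraMap ℚ Ω)
        have h5 := map_rat_smul φ (b.repr x k) (b k)
        rw [h5]
        change (algebraMap ℚ Ω (b.repr x k)) • φ (b k) = _
        rw [eq_ratCast]
      rw [h4, hφ]
      exact Submodule.smul_mem _ _ (Submodule.subset_span ⟨k, rfl⟩)
    · refine Submodule.span_mono ?_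
      rintro _ ⟨k, rfl⟩
      exact ⟨b k, rfl⟩
  rw [hm, hspan, finrank_span_eq_card hli, Fintype.card_fin]

theorem blochSoule (hT : IsHomology T) {ord : V → ℤ → ℤ} (ho : IsZetaOrder T ord) {X : V}
    (hX : TB T X) (j : ℤ) : BlochSoule T ord X j := by
  refine ⟨fun i => (mult_eq hT hX i j).1, ?_⟩
  obtain ⟨N, h1, h2⟩ := ho X j
  refine ⟨N, fun i hi x => ?_, ?_⟩
  · haveI := (mult_eq hT hX i j).1
    have h3 : finrank ℚ (T.M X i j) = 0 := by
      rw [(mult_eq hT hX i j).2]
      unfold mult
      have : Subsingleton (T.E X i j) := ⟨fun a b => (h1 i hi a).trans (h1 i hi b).symm⟩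
      exact finrank_zero_of_subsingleton
    have := finrank_zero_iff.1 h3
    exact Subsingleton.elim _ _
  · rw [h2]
    refine Finset.sum_congr rfl fun i _ => ?_
    rw [(mult_eq hT hX i j).2]

end Pool.Agent.TH117.GN.Zeta
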