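import Pool.Agent.TH117.GN.Defs

/-!
# Unramified cohomology: definitions
-/

set_option autoImplicit false

namespace Pool.Agent.TH117.GN

open Pool.Agent.W495.FM

variable {Ω V : Type} [Field Ω]

/-- The groups `U X = H^3_nr(X, ℚ/ℤ(2))` are the unramified cohomology groups of the smooth projective
varieties `X` over finite fields (those with the property `S X`), and `A X = H^4_et(X, ℤ(2))`: there is
an exact sequence `0 → CH^2(X) → A X → U X → 0`, and `U X` is a torsion group (Lichtenbaum, Kahn); if
the regulators for `X` are isomorphisms onto the Frobenius invariants and the eigenvalue one is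
semisimple, then `A X` is finitely generated (Geisser, Kahn). -/
def IsUnramified (T : Homology Ω V) (S : V → Prop) (A U : V → Type) [∀ X, AddCommGroup (A X)]
    [∀ X, AddCommGroup (U X)] : Prop :=
  ∀ X, S X → (∃ f : A X →+ U X, Function.Surjective f) ∧ (∀ u : U X, IsOfFinAddOrder u) ∧
    (TB T X → AddGroup.FG (A X))

end Pool.Agent.TH117.GN
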