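import Pool.Agent.TH117.GN.WeilEtaleDefs
import Pool.Agent.TH117.GN.UnramifiedDefs
import Pool.Agent.TH117.GN.Main

/-!
# Weil-étale motivic cohomology and unramified cohomology
-/

set_option autoImplicit false

namespace Pool.Agent.TH117.GN

open Pool.Agent.W495.TA Pool.Agent.W495.FM

theorem finite_of_torsion {A U : Type} [AddCommGroup A] [AddCommGroup U] (f : A →+ U)
    (hf : Function.Surjective f) (hU : ∀ u : U, IsOfFinAddOrder u) (hA : AddGroup.FG A) :
    Finite U := by
  have h1 : AddGroup.FG U := AddGroup.fg_of_surjective hf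
  have h2 : Module.Finite ℤ U := Module.Finite.iff_addGroup_fg.2 h1
  have h3 : Module.IsTorsion ℤ U := by
    intro u
    obtain ⟨n, hn, hu⟩ := isOfFinAddOrder_iff_nsmul_eq_zero.1 (hU u)
    refine ⟨⟨(n : ℤ), mem_nonZeroDivisors_of_ne_zero (by exact_mod_cast hn.ne')⟩, ?_⟩
    change (n : ℤ) • u = 0
    rw [natCast_zsmul, hu]
  exact Module.finite_of_fg_torsion U h3

variable {p : ℕ} [Fact p.Prime] {ν : PadicAlgCl p ≃+* ℂ} {Ω : Type} [Field Ω] [IsAlgClosed Ω]
  [CharZero Ω] {V : Type} {T : Homology Ω V}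

theorem unramified_finite (hT : IsHomology T) {S : V → Prop} {A U : V → Type}
    [∀ X, AddCommGroup (A X)] [∀ X, AddCommGroup (U X)] (hU : IsUnramified T S A U) {X : V}
    (hX : Generated T (IsGoodAbelian p ν T) X) (hS : S X) : Finite (U X) := by
  obtain ⟨⟨f, hf⟩, h1, h2⟩ := hU X hS
  exact finite_of_torsion f hf h1 (h2 (tb_good hT hX))

end Pool.Agent.TH117.GN
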