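import Pool.Agent.TH117.GN.BPDefs
import Pool.Agent.TH117.GN.Num
import Pool.Agent.W495.FM.Higher

/-!
# The motivic cup product pairing over finite fields
-/

set_option autoImplicit false

namespace Pool.Agent.TH117.GN.BP

open Pool.Agent.W495.TA Pool.Agent.W495.FM Module

variable {p : ℕ} [Fact p.Prime] {ν : PadicAlgCl p ≃+* ℂ} {Ω : Type} [Field Ω] [IsAlgClosed Ω]
  [CharZero Ω] {X : Groups} {d : ℕ}

theorem of_zero {i n j m : ℤ} (h1 : ∀ x : X.H i n, x = 0) (h2 : ∀ x : X.H j m, x = 0) :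
    IsPerfectAt X i n j m := by
  have : Subsingleton (X.H i n) := ⟨fun x y => (h1 x).trans (h1 y).symm⟩
  have : Subsingleton (X.H j m) := ⟨fun x y => (h2 x).trans (h2 y).symm⟩
  exact ⟨inferInstance, inferInstance, fun x _ => h1 x, fun y _ => h2 y⟩

theorem tate_of {Y : RedAV p ν} {C : Cycles Ω Y} (h : IsElementaryAV Y) (hC : IsChow C) :
    TateHolds C := by
  obtain ⟨Z, h1, h2⟩ := h
  exact tateHolds_elem h1 h2 hC

theorem vanish (hX : IsGenerated p ν Ω X d) (i n : ℤ) (hi : i ≠ 2 * n) (x : X.H i n) : x = 0 := by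
  obtain ⟨I, _, Y, C, M, g, s, R, h, -, h2⟩ := hX
  refine h2 i n x fun l => ?_
  obtain ⟨hE, hC, hM, -⟩ := h l
  exact motivic_trivial hC (tate_of hE hC) hM _ _ (by omega) _

theorem finite_cycles (hX : IsGenerated p ν Ω X d) (n : ℤ) :
    FiniteDimensional ℚ (X.H (2 * n) n) := by
  obtain ⟨I, _, Y, C, M, g, s, R, h, h1, -⟩ := hX
  have hf : ∀ l, FiniteDimensional ℚ ((C l).CH (n - s l).toNat) := fun l =>
    finite_chow (h l).2.1 (tate_of (h l).1 (h l).2.1) (h l).2.2.2.dim _
  choose φ hφ using fun l => add_smul_rat ((h l).2.2.2.add n (n - s l).toNat)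
  have := Fintype.ofFinite I
  refine Module.Finite.of_injective (LinearMap.pi φ) ?_
  rw [injective_iff_map_eq_zero]
  intro x hx
  refine h1 n x fun l m hm => ?_
  have e : m = (n - s l).toNat := by omega
  subst e
  rw [← hφ]
  exact congrFun hx l

theorem nondeg (hX : IsGenerated p ν Ω X d) {n m : ℤ} (hnm : m + n = d) (x : X.H (2 * n) n)
    (hx : ∀ z : X.H (2 * m) m, X.pair (2 * m) m (2 * n) n z x = 0) : x = 0 := by
  obtain ⟨I, _, Y, C, M, g, s, R, h, h1, -⟩ := hX
  refine h1 n x fun l k hk => ?_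
  obtain ⟨hE, hC, -, hR⟩ := h l
  rcases le_or_gt k (g l) with hg | hg
  · obtain ⟨i, hi⟩ : ∃ i, i + k = g l := ⟨g l - k, by omega⟩
    refine num_trivial hC (tate_of hE hC) (i := i) (by rw [hi]; exact hR.dim) _ fun y => ?_
    rw [← hR.adjoint n m k i hk hnm hi y x]
    exact hx _
  · exact chow_zero hC hR.dim hg _

theorem isPerfectAt (hT : IsSymm X) (hX : IsGenerated p ν Ω X d) {i n j m : ℤ}
    (hij : i + j = 2 * d) (hnm : n + m = d) : IsPerfectAt X i n j m := by
  by_cases hi : i = 2 * n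
  · have hj : j = 2 * m := by omega
    subst hi hj
    exact ⟨finite_cycles hX n, finite_cycles hX m,
      fun x hx => nondeg hX (m := m) (by omega) x fun z => by rw [hT m n, hx],
      fun y hy => nondeg hX hnm y hy⟩
  · exact of_zero (vanish hX i n hi) (vanish hX j m (by omega))

end Pool.Agent.TH117.GN.BP
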