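import Pool.Agent.TH117.GN.Defs

/-!
# Weil-étale motivic cohomology: definitions
-/

set_option autoImplicit false

namespace Pool.Agent.TH117.GN

open Pool.Agent.W495.FM

variable {Ω V : Type} [Field Ω]

/-- The groups `W X n i = H^i_W(X, ℤ(n))` are the Weil-étale motivic cohomology groups of the smooth
projective varieties `X` over finite fields (those with the property `S X`): they are finitely
generated if the regulators for `X` are isomorphisms onto the Frobenius invariants and the eigenvalue
one is semisimple (Geisser, Kahn). -/
def IsWeilEtale (T : Homology Ω V) (S : V → Prop) (W : V → ℤ → ℤ → Type)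
    [∀ X n i, AddCommGroup (W X n i)] : Prop :=
  ∀ X, S X → TB T X → ∀ n i, AddGroup.FG (W X n i)

end Pool.Agent.TH117.GN
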