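import Pool.Agent.TH117.GN.NCTateDefs
import Pool.Agent.TH117.GN.Main

/-!
# The noncommutative Tate conjecture
-/

set_option autoImplicit false

namespace Pool.Agent.TH117.GN.NCTate

open Pool.Agent.W495.TA Pool.Agent.W495.FM

variable {p : ℕ} [Fact p.Prime] {ν : PadicAlgCl p ≃+* ℂ} {Ω : Type} [Field Ω] [IsAlgClosed Ω]
  [CharZero Ω]

theorem ncTate {G : ℕ → Type} [∀ n, AddCommGroup (G n)] (hG : IsGeneratedNC p ν Ω G) (n : ℕ)
    (hn : 0 < n) (x : G n) : x = 0 := by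
  obtain ⟨I, _, Y, Z, T, h1, h2, h3, h4⟩ := hG
  obtain ⟨φ, hφ⟩ := h4 n hn
  refine hφ x fun l => ?_
  have := (h3 l).thomason (fun m hm i f hf => (h3 l).algebraic m hm i f
    (BL.elementary (Z l) (h1 l) Ω (Y l) (h2 l) m i hm f hf) hf) n hn
  exact Subsingleton.elim _ _

end Pool.Agent.TH117.GN.NCTate
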