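import Pool.Agent.W495.FM.HigherDefs
import Pool.Agent.TH117.BL.Defs

/-!
# The motivic cup product pairing over finite fields: definitions
-/

set_option autoImplicit false

namespace Pool.Agent.TH117.GN.BP

open Pool.Agent.W495.TA Pool.Agent.W495.FM Module

/-- The rational motivic cohomology groups `H i n = H^i(X, ℚ(n))` of a variety `X`, and the pairing of
`H^i(X, ℚ(n))` and `H^j(X, ℚ(m))` given by the cup product and the degree map. In particular
`H (2 * n) n` is the Chow group `CH^n(X)_ℚ`, and the pairing gives the intersection numbers. -/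
structure Groups where
  H : ℤ → ℤ → Type
  [grp : ∀ i n, AddCommGroup (H i n)]
  [mod : ∀ i n, Module ℚ (H i n)]
  pair : ∀ i n j m, H i n → H j m → ℚ

attribute [instance] Groups.grp Groups.mod

/-- The intersection numbers are symmetric (that they are bilinear is not used). -/
def IsSymm (X : Groups) : Prop :=
  ∀ n m x y, X.pair (2 * n) n (2 * m) m x y = X.pair (2 * m) m (2 * n) n y x

variable {p : ℕ} [Fact p.Prime] {ν : PadicAlgCl p ≃+* ℂ} {Ω : Type} [Field Ω] [CharZero Ω]

/-- A correspondence from `X` to the abelian variety `Y`: its operation on the Chow groups and that of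
its transpose, and its operation on the other motivic cohomology groups. -/
structure Corr (X : Groups) {Y : RedAV p ν} (C : Cycles Ω Y) (M : Motivic C) where
  a : ∀ n m, X.H (2 * n) n → C.CH m
  t : ∀ n m, C.CH m → X.H (2 * n) n
  h : ∀ i n j m, X.H i n → M.H j m

/-- The operation on the Chow groups is additive, it maps cycles of codimension `n` to cycles of
codimension `n - s`, and the operation of the transpose is adjoint to it for the intersection numbers
on `X` (of dimension `d`) and `Y` (of dimension `g`). -/
structure IsCorr {X : Groups} {Y : RedAV p ν} {C : Cycles Ω Y} {M : Motivic C} (R : Corr X C M)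
    (s : ℤ) (d g : ℕ) : Prop where
  dim : HasDim Y g
  add : ∀ n m x y, R.a n m (x + y) = R.a n m x + R.a n m y
  adjoint : ∀ (n n' : ℤ) (m m' : ℕ), n = m + s → n' + n = d → m' + m = g → ∀ y x,
    X.pair (2 * n') n' (2 * n) n (R.t n' m' y) x = C.int m' m y (R.a n m x)

/-- `Y` is isogenous, over an algebraic closure, to a product of a supersingular abelian variety and
of powers of the factors of an abelian variety `Z` with elementary relations between the Frobenius
eigenvalues. -/
def IsElementaryAV (Y : RedAV p ν) : Prop :=
  ∃ Z : RedAV p ν, BL.HasElementaryRelations Z ∧ BL.IsPowersTimesSupersingular Z Y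

/-- The motive of the smooth projective variety `X` of dimension `d` over a finite field is a direct
summand of a finite sum of twists of motives of abelian varieties `Y l` with elementary relations
between the Frobenius eigenvalues: `H^i(X, ℚ(n))` embeds, by correspondences, in the sum of the groups
`H^(i - 2 s l)(Y l, ℚ(n - s l))`. -/
def IsGenerated (p : ℕ) [Fact p.Prime] (ν : PadicAlgCl p ≃+* ℂ) (Ω : Type) [Field Ω] [CharZero Ω]
    (X : Groups) (d : ℕ) : Prop :=
  ∃ (I : Type) (_ : Finite I) (Y : I → RedAV p ν) (C : ∀ l, Cycles Ω (Y l))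
    (M : ∀ l, Motivic (C l)) (g : I → ℕ) (s : I → ℤ) (R : ∀ l, Corr X (C l) (M l)),
    (∀ l, IsElementaryAV (Y l) ∧ IsChow (C l) ∧ IsMotivic (M l) ∧ IsCorr (R l) (s l) d (g l)) ∧
    (∀ n x, (∀ (l : I) (m : ℕ), n = m + s l → (R l).a n m x = 0) → x = 0) ∧
    ∀ i n x, (∀ l, (R l).h i n (i - 2 * s l) (n - s l) x = 0) → x = 0

/-- The pairing of `H^i(X, ℚ(n))` and `H^j(X, ℚ(m))` is perfect: these spaces are finite-dimensional,
and the left and the right kernel of the pairing vanish (so each space is the dual of the other). -/
def IsPerfectAt (X : Groups) (i n j m : ℤ) : Prop :=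
  Module.Finite ℚ (X.H i n) ∧ Module.Finite ℚ (X.H j m) ∧
    (∀ x, (∀ y, X.pair i n j m x y = 0) → x = 0) ∧ ∀ y, (∀ x, X.pair i n j m x y = 0) → y = 0

end Pool.Agent.TH117.GN.BP
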