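import Pool.Agent.W495.FM.HomDefs
import Pool.Agent.TH117.BL.Defs

/-!
# Schemes over finite fields generated by certain abelian varieties: definitions
-/

set_option autoImplicit false

namespace Pool.Agent.TH117.GN

open Pool.Agent.W495.TA Pool.Agent.W495.FM Module

variable {p : ℕ} [Fact p.Prime] {ν : PadicAlgCl p ≃+* ℂ}

/-- `Y` is isogenous, over an algebraic closure, to a product of a supersingular abelian variety and
of powers of the factors of an abelian variety `Z` such that

* the dimension of `Z` is at most five, and no two factors of `Z` form an exceptional pair; or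
* the factors of `Z` have dimension at most three, and any two of them whose CM fields have the same
  Galois closure over `ℚ` are isogenous, unless these fields are Galois over `ℚ` or one of the two
  factors is supersingular. -/
def IsGoodAV (Y : RedAV p ν) : Prop :=
  ∃ Z : RedAV p ν, BL.IsGoodSet Z Set.univ ∧ BL.IsPowersTimesSupersingular Z Y

/-- The groups of motivic and of `ℓ`-adic homology of `X` are those of an abelian variety `Y` as
above. -/
def IsGoodAbelian {Ω V : Type} [Field Ω] [CharZero Ω] (p : ℕ) [Fact p.Prime]
    (ν : PadicAlgCl p ≃+* ℂ) (T : Homology Ω V) (X : V) : Prop :=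
  ∃ (Y : RedAV p ν) (C : Cycles Ω Y) (M : Motivic C) (g : ℕ), IsGoodAV Y ∧ IsChow C ∧
    IsMotivic M ∧ IsAbelian T X M g

end Pool.Agent.TH117.GN
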