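import Pool.Agent.W495.FM.HomDefs
import Pool.Agent.TH117.BL.Defs

/-!
# Schemes over finite fields with the homology of certain abelian varieties
-/

namespace Pool.Agent.TH117.GN

open Pool.Agent.W495.TA Pool.Agent.W495.FM

/-- The groups of motivic and of `ℓ`-adic homology of `X` are those of an abelian variety `Y` which is
isogenous, over an algebraic closure, to a product of a supersingular abelian variety and of powers of
the factors of an abelian variety `Z` such that

* the dimension of `Z` is at most five, and no two factors of `Z` form an exceptional pair; or
* the factors of `Z` have dimension at most three, and any two of them whose CM fields have the same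
  Galois closure over `ℚ` are isogenous, unless these fields are Galois over `ℚ` or one of the two
  factors is supersingular. -/
def IsGood {Ω V : Type} [Field Ω] [CharZero Ω] (p : ℕ) [Fact p.Prime] (ν : PadicAlgCl p ≃+* ℂ)
    (T : Homology Ω V) (X : V) : Prop :=
  ∃ (Y Z : RedAV p ν) (C : Cycles Ω Y) (M : Motivic C) (g : ℕ), BL.IsGoodSet Z Set.univ ∧
    BL.IsPowersTimesSupersingular Z Y ∧ IsChow C ∧ IsMotivic M ∧ IsAbelian T X M g

end Pool.Agent.TH117.GN
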