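import Pool.Agent.TH117.GN.Main

/-! # The generic point -/

set_option autoImplicit false

namespace Pool.Agent.TH117.GN

open Pool.Agent.W495.FM

variable {Ω : Type} [Field Ω] {V : Type} {T : Homology Ω V}

theorem generic_of_tb (hT : IsHomology T) {U U' : V} (h : TB T U') {i j : ℤ}
    (ρ : Hom T U i j U' i j) :
    (∀ e, ρ.g (T.frob U i j e) = ρ.g e ↔ ρ.g e ∈ Submodule.span Ω (Set.range (T.reg U' i j))) ∧
    (∀ (r : ℕ) (x : Fin r → T.M U i j), (LinearIndependent ℚ fun k => ρ.f (x k)) →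
      LinearIndependent Ω fun k => ρ.g (T.reg U i j (x k))) ∧
    ∀ e, ρ.g (T.frob U i j (T.frob U i j e - e)) = ρ.g (T.frob U i j e - e) →
      ρ.g (T.frob U i j e) = ρ.g e := by
  have hsub : ∀ u v, ρ.g (u - v) = ρ.g u - ρ.g v := by
    intro u v
    obtain ⟨L, hL⟩ := ρ.lin
    rw [hL, hL, hL, map_sub]
  refine ⟨?_, ?_, ?_⟩
  · intro e
    rw [← (h i j).1, ρ.frob]
  · intro r x hx
    have h1 := (h i j).2.1 r _ hx
    have h2 : (fun k => ρ.g (T.reg U i j (x k))) = fun k => T.reg U' i j (ρ.f (x k)) := by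
      funext k
      exact (ρ.reg (x k)).symm
    rw [h2]
    exact h1
  · intro e he
    rw [← ρ.frob]
    apply (h i j).2.2
    have h4 : ρ.g (T.frob U i j e - e) = T.frob U' i j (ρ.g e) - ρ.g e := by
      rw [hsub, ρ.frob]
    rw [← h4, ρ.frob]
    exact he

theorem tb_good_or {p : ℕ} [Fact p.Prime] {ν : PadicAlgCl p ≃+* ℂ}
    [CharZero Ω] [IsAlgClosed Ω] (hT : IsHomology T) {C : V → Prop} (hC : ∀ Z, C Z → TB T Z) {X : V}
    (hX : Generated T (fun Y => IsGoodAbelian p ν T Y ∨ C Y) X) : TB T X :=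
  tb_generated hT (S := fun Y => IsGoodAbelian p ν T Y ∨ C Y)
    (fun Y hY => hY.elim (fun h => tb_good (p := p) (ν := ν) hT (Generated.base Y h)) (hC Y)) hX

end Pool.Agent.TH117.GN
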