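import Pool.Agent.TH117.GN.Defs2
import Pool.Agent.TH117.GN.Main

/-!
# Open subvarieties and images of schemes generated by abelian varieties
-/

set_option autoImplicit false

namespace Pool.Agent.TH117.GN

open Pool.Agent.W495.TA Pool.Agent.W495.FM

variable {p : ℕ} [Fact p.Prime] {ν : PadicAlgCl p ≃+* ℂ} {Ω : Type} [Field Ω] [IsAlgClosed Ω]
  [CharZero Ω] {V : Type} {T : Homology Ω V}

theorem onto_good2 (hT : IsHomology T) (hW : HasWeights T) {X : V}
    (hX : Spread T (Generated T (IsGood p ν T)) X) (i : ℤ) : IsOnto T X i := by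
  refine onto_spread hT hW (fun X h i => ?_) hX i
  refine ((tb_generated hT (fun X hX => ?_) h).iso hT i).1
  obtain ⟨Y, Z, C, M, g, h1, h2, hC, hM, hX⟩ := hX
  exact tb_abelian hT hC (tateHolds_elem (elem_of_good h1) h2 hC) hM hX

end Pool.Agent.TH117.GN
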