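import Pool.Agent.W495.FM.Defs
import Pool.Agent.TH117.BL.Defs

/-!
# Dg categories over finite fields with noncommutative motives generated by abelian varieties:
definitions
-/

set_option autoImplicit false

namespace Pool.Agent.TH117.GN.NC

open Pool.Agent.W495.TA Pool.Agent.W495.FM

variable {p : ℕ} [Fact p.Prime] {ν : PadicAlgCl p ≃+* ℂ} {Ω : Type} [Field Ω] [CharZero Ω]

/-- The group `K_0(Y)_ℚ` of an abelian variety `Y`, identified with the product of the Chow groups
`CH^j(Y)_ℚ` by the Chern character. -/
abbrev K0 {Y : RedAV p ν} (C : Cycles Ω Y) : Type := ∀ j : ℕ, C.CH j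

/-- The Euler pairing on `K_0(Y)_ℚ`, where `Y` has dimension `g` (theorem of Riemann, Roch and
Hirzebruch): the sum of `(-1)^j x_j . y_(g-j)`. -/
def euler {Y : RedAV p ν} (C : Cycles Ω Y) (g : ℕ) (x y : K0 C) : ℚ :=
  ∑ j ∈ Finset.range (g + 1), (-1) ^ j * C.int j (g - j) (x j) (y (g - j))

/-- The operations of bimodules between a dg category `𝒜` with `K_0(𝒜)_ℚ = K` and the dg categories of
perfect complexes on abelian varieties `Y l`: functors `a l` from `𝒜` to `perf(Y l)` and their left
adjoints `t l`, and functors `b l` from `perf(Y l)` to `𝒜` (with rational coefficients). -/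
structure Bimodules (K : Type) {I : Type} {Y : I → RedAV p ν} (C : ∀ l, Cycles Ω (Y l)) where
  a : ∀ l, K → K0 (C l)
  t : ∀ l, K0 (C l) → K
  b : ∀ l, K0 (C l) → K

/-- The noncommutative motive of `𝒜`, with `K = K_0(𝒜)_ℚ` and the Euler pairing `χ`, is a direct summand
of the sum of the noncommutative motives of the abelian varieties `Y l` of dimension `g l`. -/
structure IsNCSummand {K : Type} [AddCommGroup K] (χ : K → K → ℚ) {I : Type} [Fintype I]
    {Y : I → RedAV p ν} {C : ∀ l, Cycles Ω (Y l)} (g : I → ℕ) (R : Bimodules K C) : Prop where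
  dim : ∀ l, HasDim (Y l) (g l)
  add : ∀ l x y, R.b l (x + y) = R.b l x + R.b l y
  sum : ∀ x, ∑ l, R.b l (R.a l x) = x
  adjoint : ∀ l y x, χ (R.t l y) x = euler (C l) (g l) y (R.a l x)

/-- The noncommutative motive of the dg category `𝒜`, with `K = K_0(𝒜)_ℚ` and the Euler pairing `χ`, is
a direct summand of a finite sum of noncommutative motives of abelian varieties `Y l`, each isogenous,
over an algebraic closure, to a product of a supersingular abelian variety and of powers of the
factors of an abelian variety `Z l` with elementary relations between the Frobenius eigenvalues. -/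
def IsGenerated (p : ℕ) [Fact p.Prime] (ν : PadicAlgCl p ≃+* ℂ) (Ω : Type) [Field Ω] [CharZero Ω]
    {K : Type} [AddCommGroup K] (χ : K → K → ℚ) : Prop :=
  ∃ (I : Type) (_ : Fintype I) (Y Z : I → RedAV p ν) (C : ∀ l, Cycles Ω (Y l)) (g : I → ℕ)
    (R : Bimodules K C), (∀ l, BL.HasElementaryRelations (Z l)) ∧
      (∀ l, BL.IsPowersTimesSupersingular (Z l) (Y l)) ∧ (∀ l, IsChow (C l)) ∧ IsNCSummand χ g R

end Pool.Agent.TH117.GN.NC
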