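import Pool.Agent.W495.FM.Defs
import Pool.Agent.TH117.BL.Defs

/-!
# The noncommutative Tate conjecture: definitions
-/

set_option autoImplicit false

namespace Pool.Agent.TH117.GN.NCTate

open Pool.Agent.W495.TA Pool.Agent.W495.FM

variable {p : ℕ} [Fact p.Prime] {ν : PadicAlgCl p ≃+* ℂ}

/-- Data for an abelian variety `Y` over a finite field: for `n ≥ 1` the space `alg n i` of the
classes of degree `2 i` that are linear combinations of classes of algebraic cycles over the extension
of degree `n` of the ground field, and the group `G n = G_n(Y)`, the Tate module of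
`π_{-1} L_{KU} K(Y)` over this extension. -/
structure Theory (Ω : Type) [Field Ω] [CharZero Ω] (Y : RedAV p ν) where
  alg : ℕ → ∀ i, Set (Coh Ω Y (2 * i))
  G : ℕ → Type

variable {Ω : Type} [Field Ω] [CharZero Ω]

structure IsTheory {Y : RedAV p ν} (T : Theory Ω Y) : Prop where
  /-- the Tate classes that are generated by Tate classes of degree two and by reductions of split
  Weil classes are linear combinations of classes of algebraic cycles (theorems of Tate and
  Markman) -/
  algebraic : ∀ n, 0 < n → ∀ i f, IsGenerated i f → IsTateClass Ω Y n i f → f ∈ T.alg n i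
  /-- if the Tate conjecture holds for `Y` over all finite extensions of the ground field, then the
  groups `G_n(Y)` vanish (Thomason) -/
  thomason : (∀ n, 0 < n → ∀ i f, IsTateClass Ω Y n i f → f ∈ T.alg n i) →
    ∀ n, 0 < n → Subsingleton (T.G n)

/-- The noncommutative motive of the dg category `𝒜` with the groups `G n = G_n(𝒜)` is a direct
summand of the sum of the noncommutative motives of the abelian varieties `Y l`: there are maps from
`G_n(𝒜)` to the groups `G_n(Y l)` such that an element with trivial images is trivial. -/
def IsNCSummand (G : ℕ → Type) [∀ n, AddCommGroup (G n)] {I : Type} {Y : I → RedAV p ν}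
    (T : ∀ l, Theory Ω (Y l)) : Prop :=
  ∀ n, 0 < n → ∃ φ : ∀ l, G n → (T l).G n, ∀ x, (∀ l, φ l x = φ l 0) → x = 0

/-- The noncommutative motive of `𝒜` is a direct summand of a finite sum of noncommutative motives of
abelian varieties `Y l`, each isogenous, over an algebraic closure, to a product of a supersingular
abelian variety and of powers of the factors of an abelian variety `Z l` with elementary relations
between the Frobenius eigenvalues. -/
def IsGeneratedNC (p : ℕ) [Fact p.Prime] (ν : PadicAlgCl p ≃+* ℂ) (Ω : Type) [Field Ω] [CharZero Ω]
    (G : ℕ → Type) [∀ n, AddCommGroup (G n)] : Prop :=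
  ∃ (I : Type) (_ : Finite I) (Y Z : I → RedAV p ν) (T : ∀ l, Theory Ω (Y l)),
    (∀ l, BL.HasElementaryRelations (Z l)) ∧ (∀ l, BL.IsPowersTimesSupersingular (Z l) (Y l)) ∧
      (∀ l, IsTheory (T l)) ∧ IsNCSummand G T

end Pool.Agent.TH117.GN.NCTate
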