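import Pool.Agent.W495.FM.HigherDefs
import Pool.Agent.TH117.BL.Defs

/-!
# `K`-theory of varieties over finite fields with motives generated by abelian varieties: definitions
-/

set_option autoImplicit false

namespace Pool.Agent.TH117.GN.Par

open Pool.Agent.W495.TA Pool.Agent.W495.FM

/-- The motivic cohomology groups `X i n = H^i(X, ℚ(n))` are those of a smooth projective variety `X`
over a finite field whose motive is a direct summand of a finite sum of twists of motives of abelian
varieties `Y l`, each isogenous, over an algebraic closure, to a product of a supersingular abelian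
variety and of powers of the factors of an abelian variety `Z l` with elementary relations between the
Frobenius eigenvalues. -/
def IsGenerated (p : ℕ) [Fact p.Prime] (ν : PadicAlgCl p ≃+* ℂ) (Ω : Type) [Field Ω] [CharZero Ω]
    (X : ℤ → ℤ → Type) [∀ i n, AddCommGroup (X i n)] : Prop :=
  ∃ (I : Type) (_ : Fintype I) (Y Z : I → RedAV p ν) (C : ∀ l, Cycles Ω (Y l))
    (M : ∀ l, Motivic (C l)) (r : I → ℤ), (∀ l, BL.HasElementaryRelations (Z l)) ∧
      (∀ l, BL.IsPowersTimesSupersingular (Z l) (Y l)) ∧ (∀ l, IsChow (C l)) ∧
      (∀ l, IsMotivic (M l)) ∧ IsSummand M r X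

/-- The element `x` has finite order. -/
def IsTors {A : Type} [AddCommGroup A] (x : A) : Prop := ∃ N : ℕ, 0 < N ∧ N • x = 0

/-- The Chern character: homomorphisms from `K_m(X)` to `H^(2 n - m)(X, ℚ(n))` for all `n`; an element
of `K_m(X)` with images of finite order has finite order. -/
def HasChernCharacter (K : ℕ → Type) [∀ m, AddCommGroup (K m)] (X : ℤ → ℤ → Type)
    [∀ i n, AddCommGroup (X i n)] : Prop :=
  ∀ m : ℕ, ∃ ch : ∀ n : ℤ, K m →+ X (2 * n - m) n, ∀ x, (∀ n, IsTors (ch n x)) → IsTors x

end Pool.Agent.TH117.GN.Par
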