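import Pool.Agent.TH117.GN.Defs2

/-!
# Regulators for a fixed twist, and closed subschemes of bounded dimension
-/

namespace Pool.Agent.TH117.GN

open Pool.Agent.W495.TA Pool.Agent.W495.FM

variable {Ω V : Type} [Field Ω]

/-- The regulator of `X` in degree `i`, with twist `j`, induces (after extension of scalars) an
isomorphism with the space of the Frobenius invariant elements, and the eigenvalue one is
semisimple. -/
def IsRegIso (T : Homology Ω V) (X : V) (i j : ℤ) : Prop :=
  (∀ e, T.frob X i j e = e ↔ e ∈ Submodule.span Ω (Set.range (T.reg X i j))) ∧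
    (∀ (r : ℕ) (x : Fin r → T.M X i j), LinearIndependent ℚ x →
      LinearIndependent Ω fun k => T.reg X i j (x k)) ∧
    ∀ e, T.frob X i j (T.frob X i j e - e) = T.frob X i j e - e → T.frob X i j e = e

/-- The closed subscheme `Z` has dimension at most `d`: for `j ≥ d` the group `H_n^M(Z, ℚ(j))` and the
space of invariant elements in `H_n(Z, ℚ_ℓ(j))` vanish unless `n = 2 j = 2 d`, and in this case they are
given by the irreducible components of dimension `d`. -/
def HasDimAtMost (T : Homology Ω V) (Z : V) (d : ℤ) : Prop :=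
  IsRegIso T Z (2 * d) d ∧ ∀ n j, d ≤ j → n ≠ 2 * d ∨ d ≠ j →
    (∀ x : T.M Z n j, x = 0) ∧ ∀ e : T.E Z n j, T.frob Z n j e = e → e = 0

end Pool.Agent.TH117.GN
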