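import Pool.Agent.TH117.GN.Defs

/-!
# The orders of zeta functions and the ranks of higher Chow groups: definitions
-/

set_option autoImplicit false

namespace Pool.Agent.TH117.GN.Zeta

open Pool.Agent.W495.TA Pool.Agent.W495.FM Module

variable {Ω V : Type} [Field Ω]

/-- The multiplicity of the eigenvalue one of the Frobenius on `H_i(X, ℚ_ℓ(j))`: the dimension of the
space of the elements killed by a power of `Frobenius - 1`. By duality it is the multiplicity of the
eigenvalue `q ^ j` on the cohomology `H^i_c(X, ℚ_ℓ)` with compact supports. -/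
noncomputable def mult (T : Homology Ω V) (X : V) (i j : ℤ) : ℕ :=
  finrank Ω (Submodule.span Ω {e | ∃ N : ℕ, (fun e => T.frob X i j e - e)^[N] e = 0})

/-- `ord X j` is the order at `s = j` of the zeta function of the scheme `X` over a finite field (the
order of vanishing, negative for a pole). By the theorem of Grothendieck it is given by the
multiplicities of the eigenvalues of the Frobenius on the cohomology with compact supports. -/
def IsZetaOrder (T : Homology Ω V) (ord : V → ℤ → ℤ) : Prop :=
  ∀ X j, ∃ N : ℕ, (∀ i : ℤ, i < 0 ∨ N < i → ∀ e : T.E X i j, e = 0) ∧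
    - ord X j = ∑ i ∈ Finset.range (N + 1), (-1) ^ i * (mult T X i j : ℤ)

/-- The conjecture of Bloch and Soulé for `X` at the point `s = j`: the groups
`H_i^M(X, ℚ(j)) = CH_j(X, i - 2 j) ⊗ ℚ` have finite dimension, they vanish for almost all `i`, and minus
the order of the zeta function at `s = j` is the alternating sum of the dimensions. -/
def BlochSoule (T : Homology Ω V) (ord : V → ℤ → ℤ) (X : V) (j : ℤ) : Prop :=
  (∀ i, Module.Finite ℚ (T.M X i j)) ∧ ∃ N : ℕ, (∀ i : ℤ, i < 0 ∨ N < i → ∀ x : T.M X i j, x = 0) ∧
    - ord X j = ∑ i ∈ Finset.range (N + 1), (-1) ^ i * (finrank ℚ (T.M X i j) : ℤ)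

end Pool.Agent.TH117.GN.Zeta
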